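import Pool.Agent.Helper52.EK.Defs
set_option autoImplicit false
open Complex MeasureTheory Metric Set
open scoped Real ComplexConjugate

/-!
# Project CK (critical multiplier): common definitions and the statements of the interfaces

`z = ep (-x) θ = e^(-x + iθ)`, `x = e^(-l)`. The functional is
`JJ = ∫ om(x) ∫ u(θ) |N β z|^(-κ) dθ dx` over the class `Ext`.
`dl = δ` is the excess of the exponent: the target is `B(-κ) ≤ κ - 1 + δ`.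
-/

namespace Pool.Agent.Helper52.CK

open Pool.Agent.Helper39.Area Pool.Agent.Helper52.EK

/-- density of the targets -/
noncomputable def FF (κ : ℝ) (β : ℂ → ℂ) (x θ : ℝ) : ℝ := ‖N β (ep (-x) θ)‖ ^ (-κ)

/-- integral over a rectangle of the variables `x, θ` -/
noncomputable def RR (a b : ℝ) (F : ℝ → ℝ → ℝ) : ℝ := ∫ x in a..b, ∫ θ in (-π)..π, F x θ

/-- the functional -/
noncomputable def JJ (κ : ℝ) (om u : ℝ → ℝ) (a b : ℝ) (β : ℂ → ℂ) : ℝ :=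
  RR a b fun x θ => om x * u θ * FF κ β x θ

/-- the weights -/
structure Wt (om om' u u' : ℝ → ℝ) (a b : ℝ) : Prop where
  a0 : 0 < a
  ab : a < b
  b1 : b ≤ 1 / 4
  dom : ∀ x, HasDerivAt om (om' x) x
  com : Continuous om'
  om0 : ∀ x, 0 ≤ om x
  omz : ∀ x, x ∉ Ioo a b → om x = 0
  du : ∀ θ, HasDerivAt u (u' θ) θ
  cu : Continuous u'
  u0 : ∀ θ, 0 ≤ u θ
  u1 : ∀ θ, u θ ≤ 1
  up : Function.Periodic u (2 * π)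

/-- `A²`, `A = φ'(z0) / (2 (φ(z0) - φ(z)))` -/
noncomputable def kA (β : ℂ → ℂ) (z z0 : ℂ) : ℂ := (dphi β z0 / (2 * (phi β z0 - phi β z))) ^ 2

noncomputable def k1 (z z0 : ℂ) : ℂ :=
  z * z0 / (z - z0) ^ 2 + conj z * z0 / (1 - z0 * conj z) ^ 2

noncomputable def k3 (z z0 : ℂ) : ℂ :=
  z0 * (1 - (‖z‖ : ℂ) ^ 2) / ((z - z0) * (1 - z0 * conj z))

noncomputable def k5 (z z0 : ℂ) : ℂ :=
  I / 2 * ((z + z0) / (z - z0) + (1 + z0 * conj z) / (1 - z0 * conj z))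

/-- the first variation: `dJ = Re (B E(z0))` -/
noncomputable def EE (κ : ℝ) (om om' u u' : ℝ → ℝ) (a b : ℝ) (β : ℂ → ℂ) (z0 : ℂ) : ℂ :=
  ∫ x in a..b, ∫ θ in (-π)..π, ((FF κ β x θ : ℝ) : ℂ) *
    (((κ * (om x * u θ) : ℝ) : ℂ) * (1 - 4 * z0 ^ 2 * kA β (ep (-x) θ) z0) +
      (((κ + 2) * (om x * u θ) : ℝ) : ℂ) * k1 (ep (-x) θ) z0 +
      ((κ * (om x * u θ) + om' x * u θ : ℝ) : ℂ) * k3 (ep (-x) θ) z0 +
      ((om x * u' θ : ℝ) : ℂ) * k5 (ep (-x) θ) z0)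

/-- the logarithmic derivative of the strip coordinate of the target `e^(iθ)` -/
noncomputable def omp (θ : ℝ) (z0 : ℂ) : ℂ :=
  2 * Complex.exp (θ * I) / (Complex.exp (θ * I) ^ 2 - z0 ^ 2)


/-- cut-off functions: functions of `z0` only -/
structure Cutf (b : ℝ) (W0 : ℂ → ℝ) : Prop where
  cont : Continuous W0
  nn : ∀ z, 0 ≤ W0 z
  le1 : ∀ z, W0 z ≤ 1
  supp : ∀ z, W0 z ≠ 0 → Real.exp (-1) ≤ ‖z‖ ∧ ‖z‖ ≤ Real.exp (-2 * b) ∧ ‖z - 1‖ ≤ 1 / 2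

/-- the term of the multiplier for the target `z = ep (-x) θ` -/
noncomputable def MM (κ dl : ℝ) (W0 : ℂ → ℝ) (Mh : ℂ → ℂ) (β : ℂ → ℂ) (x θ : ℝ) : ℝ :=
  π⁻¹ * ∫ z0 : ℂ, W0 z0 * (Mh z0 * (kA β (ep (-x) θ) z0 -
    ((1 + dl / (2 * κ) : ℝ) : ℂ) * omp θ z0 ^ 2)).re

/-! ### the interfaces -/

/-- NEAR: near-maximisers are nearly critical -/
def NearStmt (κ : ℝ) : Prop :=
  ∀ (om om' u u' : ℝ → ℝ) (a b : ℝ), Wt om om' u u' a b → (∃ x, 0 < om x) → (∃ θ, 0 < u θ) →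
    ∀ η : ℝ, 0 < η → ∃ (β : ℂ → ℂ) (R : ℝ), ExtR β R ∧
      (∀ γ : ℂ → ℂ, Ext γ → (1 - η) * JJ κ om u a b γ ≤ JJ κ om u a b β) ∧
      ∀ z0 : ℂ, Real.exp (-1) ≤ ‖z0‖ → ‖z0‖ ≤ Real.exp (-2 * b) →
        ‖EE κ om om' u u' a b β z0‖ ≤ η

/-- MINT: the integral of the multiplier term over the targets -/
def MIntStmt (κ dl : ℝ) : Prop :=
  ∀ Mb : ℝ, 0 ≤ Mb → ∃ C₁ : ℝ, 0 ≤ C₁ ∧ ∀ (om om' u u' : ℝ → ℝ) (a b : ℝ), Wt om om' u u' a b →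
    (∀ θ ∈ Icc (-π) π, u θ ≠ 0 → |θ| ≤ 1 / 2) →
    ∀ (β : ℂ → ℂ) (R η : ℝ), ExtR β R → 0 ≤ η →
      (∀ z0 : ℂ, Real.exp (-1) ≤ ‖z0‖ → ‖z0‖ ≤ Real.exp (-2 * b) →
        ‖EE κ om om' u u' a b β z0‖ ≤ η) →
      ∀ (W0 : ℂ → ℝ) (Mh : ℂ → ℂ), Cutf b W0 → ContinuousOn Mh {z | 0 < ‖z‖ ∧ ‖z‖ < 1} →
        (∀ z, ‖Mh z‖ ≤ Mb) →
        RR a b (fun x θ => om x * u θ * FF κ β x θ * MM κ dl W0 Mh β x θ) ≤
          C₁ * JJ κ om u a b β +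
          (Mb / (2 * κ)) * (-Real.log b + C₁) *
            RR a b (fun x θ => |(κ - 2 + dl) * om x - x * om' x| * u θ * FF κ β x θ) +
          C₁ * RR a b (fun x θ => om x * |u' θ| * FF κ β x θ) + C₁ * η

/-- ENT: entropy inequality on one circle -/
def EntStmt : Prop :=
  ∃ C : ℝ, ∀ (κ : ℝ) (β : ℂ → ℂ) (R : ℝ) (w : ℂ → ℂ) (u : ℝ → ℝ) (x : ℝ), 0 ≤ κ → ExtR β R →
    ContinuousOn w {z | 0 < ‖z‖ ∧ ‖z‖ < 1} → Continuous u → (∀ θ, 0 ≤ u θ) → (∀ θ, u θ ≤ 1) →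
    Function.Periodic u (2 * π) → 0 < x → x < 1 →
    ∀ m : ℝ, m = (2 * π)⁻¹ * ∫ θ in (-π)..π, u θ * FF κ β x θ → 0 < m →
    m * Real.log m ≤ m * (Real.log (1 - Real.exp (-2 * x)) + C) +
      (2 * π)⁻¹ * ∫ θ in (-π)..π, u θ * FF κ β x θ *
        (Kf w (Complex.exp (θ * I)) (-1) (-x) - κ * Real.log ‖N β (ep (-x) θ)‖)

/-- PT: the inequality for one target; `n` is the depth of the window, `W0` depends on `n` and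
`ε` only -/
def PTStmt (κ dl : ℝ) (G : ℂ → ℂ) (Mh : (ℂ → ℂ) → ℂ → ℂ) : Prop :=
  ∃ C₀ : ℝ, 0 ≤ C₀ ∧ ∀ ε : ℝ, 0 < ε → ∃ s C : ℝ, 0 < s ∧ s ≤ 1 / 2 ∧ 0 ≤ C ∧ ∀ n : ℝ, 2 ≤ n →
    ∃ W0 : ℂ → ℝ, Cutf (Real.exp (-n)) W0 ∧ ∀ (β : ℂ → ℂ) (R : ℝ), ExtR β R →
      ∀ x θ : ℝ, 0 < x → x ≤ Real.exp (-n) → |θ| ≤ s →
        Kf (wf G β) (Complex.exp (θ * I)) (-1) (-x) ≤
          κ * Real.log (‖N β (ep (-x) θ)‖ / (1 - Real.exp (-2 * x))) +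
          MM κ dl W0 (Mh β) β x θ + C + (dl + ε) * (-Real.log x) + C₀ * (-Real.log x - n)

end Pool.Agent.Helper52.CK
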