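import Mathlib
set_option autoImplicit false
open Real Set

/-! Project CK: the bump on an arc, and the cover of the circle by its rotations. -/

namespace Pool.Agent.Helper52.CK

theorem hasDerivAt_pos_sq (t : ℝ) : HasDerivAt (fun t : ℝ => (max 0 t) ^ 2) (2 * max 0 t) t := by
  rcases lt_trichotomy t 0 with h | h | h
  · have h1 : (fun t : ℝ => (max 0 t) ^ 2) =ᶠ[nhds t] fun _ => 0 := by
      filter_upwards [Iio_mem_nhds h] with x hx
      rw [max_eq_left (le_of_lt hx)]
      simp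
    rw [max_eq_left h.le, mul_zero]
    exact (hasDerivAt_const t (0:ℝ)).congr_of_eventuallyEq h1
  · subst h
    rw [hasDerivAt_iff_isLittleO]
    simp only [max_self, mul_zero, sub_zero, smul_eq_mul]
    have h1 : (fun x : ℝ => (max 0 x) ^ 2) =O[nhds 0] fun x => x ^ 2 := by
      refine Asymptotics.IsBigO.of_bound 1 (Filter.Eventually.of_forall fun x => ?_)
      rw [one_mul, norm_pow, norm_pow]
      refine pow_le_pow_left₀ (norm_nonneg _) ?_ 2
      rw [Real.norm_eq_abs, Real.norm_eq_abs]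
      rcases le_total 0 x with h | h
      · rw [max_eq_right h]
      · rw [max_eq_left h, abs_zero]
        exact abs_nonneg x
    have h2 : (fun x : ℝ => x ^ 2) =o[nhds 0] fun x => x := by
      have := (Asymptotics.isLittleO_pow_pow (𝕜 := ℝ) (m := 1) (n := 2) (by norm_num))
      simpa using this
    have h3 := h1.trans_isLittleO h2
    simpa using h3
  · have h1 : (fun t : ℝ => (max 0 t) ^ 2) =ᶠ[nhds t] fun t => t ^ 2 := by
      filter_upwards [Ioi_mem_nhds h] with x hx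
      rw [max_eq_right (le_of_lt hx)]
    rw [max_eq_right h.le]
    have h2 := (hasDerivAt_pow 2 t).congr_of_eventuallyEq h1
    refine h2.congr_deriv ?_
    norm_num

/-- the bump of the arc `|θ| < s` -/
noncomputable def bu (s θ : ℝ) : ℝ := (max 0 (cos θ - cos s)) ^ 2 / (1 - cos s) ^ 2

noncomputable def bu' (s θ : ℝ) : ℝ :=
  2 * max 0 (cos θ - cos s) * (-sin θ) / (1 - cos s) ^ 2

variable {s : ℝ}

theorem cos_s_lt (h0 : 0 < s) (h1 : s ≤ 1 / 2) : cos s < 1 := by
  have hpi := Real.pi_gt_three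
  have := Real.cos_lt_cos_of_nonneg_of_le_pi_div_two (x := 0) (y := s) le_rfl (by linarith) h0
  rwa [Real.cos_zero] at this

theorem bu_deriv (s θ : ℝ) : HasDerivAt (bu s) (bu' s θ) θ := by
  have h1 : HasDerivAt (fun θ => cos θ - cos s) (-sin θ) θ :=
    (Real.hasDerivAt_cos θ).sub_const _
  have h2 := (hasDerivAt_pos_sq (cos θ - cos s)).comp θ h1
  exact h2.div_const _

theorem bu'_cont (s : ℝ) : Continuous (bu' s) := by
  unfold bu'
  have : Continuous fun θ => max 0 (cos θ - cos s) :=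
    continuous_const.max (Real.continuous_cos.sub continuous_const)
  fun_prop

theorem bu_cont (s : ℝ) : Continuous (bu s) :=
  continuous_iff_continuousAt.2 fun θ => (bu_deriv s θ).continuousAt

theorem bu_nonneg (s θ : ℝ) : 0 ≤ bu s θ := by unfold bu; positivity

theorem bu_le_one (h0 : 0 < s) (h1 : s ≤ 1 / 2) (θ : ℝ) : bu s θ ≤ 1 := by
  have hc := cos_s_lt h0 h1
  unfold bu
  rw [div_le_one (by have : 0 < 1 - cos s := by linarith
                     positivity)]
  refine pow_le_pow_left₀ (le_max_left _ _) ?_ 2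
  exact max_le (by linarith) (by linarith [Real.cos_le_one θ])

theorem bu_per (s : ℝ) : Function.Periodic (bu s) (2 * π) := by
  intro θ
  unfold bu
  rw [Real.cos_add_two_pi]

theorem bu_supp (h0 : 0 < s) (h1 : s ≤ 1 / 2) {θ : ℝ} (hθ : θ ∈ Icc (-π) π)
    (h : bu s θ ≠ 0) : |θ| ≤ s := by
  by_contra hlt
  push Not at hlt
  apply h
  have hpi := Real.pi_gt_three
  have hle : |θ| ≤ π := abs_le.2 hθ
  have h2 : cos |θ| < cos s := Real.cos_lt_cos_of_nonneg_of_le_pi h0.le hle hlt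
  rw [Real.cos_abs] at h2
  unfold bu
  rw [max_eq_left (by linarith)]
  simp

theorem bu_pos_zero (h0 : 0 < s) (h1 : s ≤ 1 / 2) : 0 < bu s 0 := by
  have hc := cos_s_lt h0 h1
  unfold bu
  rw [Real.cos_zero, max_eq_right (by linarith)]
  have : 0 < 1 - cos s := by linarith
  positivity

/-- the bump is bounded below near its centre -/
theorem bu_ge (h0 : 0 < s) (h1 : s ≤ 1 / 2) : ∃ c : ℝ, 0 < c ∧ ∀ θ, |θ| ≤ s / 2 → c ≤ bu s θ := by
  have hc := cos_s_lt h0 h1
  have hpi := Real.pi_gt_three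
  have h2 : cos s < cos (s / 2) :=
    Real.cos_lt_cos_of_nonneg_of_le_pi (by linarith) (by linarith) (by linarith)
  refine ⟨(cos (s / 2) - cos s) ^ 2 / (1 - cos s) ^ 2, ?_, fun θ hθ => ?_⟩
  · have a1 : 0 < 1 - cos s := by linarith
    have a2 : 0 < cos (s / 2) - cos s := by linarith
    positivity
  · have h3 : cos (s / 2) ≤ cos |θ| :=
      Real.cos_le_cos_of_nonneg_of_le_pi (abs_nonneg _) (by linarith) hθ
    rw [Real.cos_abs] at h3
    unfold bu
    refine div_le_div_of_nonneg_right ?_ (sq_nonneg _)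
    refine pow_le_pow_left₀ (by linarith) ?_ 2
    exact (sub_le_sub_right h3 _).trans (le_max_right _ _)

/-- every angle is near a multiple of `2π/K`, modulo `2π` -/
theorem near_mult {K : ℕ} (hK : 0 < K) (θ : ℝ) :
    ∃ j ∈ Finset.range K, ∃ m : ℤ, |θ + 2 * π * j / K - m * (2 * π)| ≤ 2 * π / K := by
  have hKr : (0:ℝ) < K := by exact_mod_cast hK
  have hpi := Real.pi_pos
  -- `q` = integer part of `-θ K / (2π)`
  obtain ⟨q, hq⟩ : ∃ q : ℤ, q = ⌊-θ * K / (2 * π)⌋ := ⟨_, rfl⟩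
  obtain ⟨j, hj⟩ : ∃ j : ℕ, (j : ℤ) = q % K := ⟨(q % K).toNat, Int.toNat_of_nonneg
    (Int.emod_nonneg _ (by exact_mod_cast hK.ne'))⟩
  have hjK : j < K := by
    have := Int.emod_lt_of_pos q (by exact_mod_cast hK : (0:ℤ) < K)
    rw [← hj] at this
    exact_mod_cast this
  have hdiv : q = K * (q / K) + j := by
    rw [hj]
    exact (Int.mul_ediv_add_emod q K).symm
  refine ⟨j, Finset.mem_range.2 hjK, -(q / K), ?_⟩
  have e : θ + 2 * π * j / K - ((-(q / K) : ℤ) : ℝ) * (2 * π) = θ + 2 * π * q / K := by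
    have h1 : (q : ℝ) = K * ((q / K : ℤ) : ℝ) + j := by exact_mod_cast hdiv
    push_cast
    rw [h1]
    field_simp
    ring
  rw [e]
  have h1 : (q : ℝ) ≤ -θ * K / (2 * π) := by rw [hq]; exact Int.floor_le _
  have h2 : -θ * K / (2 * π) < q + 1 := by rw [hq]; exact Int.lt_floor_add_one _
  rw [le_div_iff₀ (by positivity)] at h1
  rw [div_lt_iff₀ (by positivity)] at h2
  have h3 : θ + 2 * π * q / K = (θ * K + 2 * π * q) / K := by field_simp
  rw [h3, abs_div, abs_of_pos hKr, div_le_div_iff_of_pos_right hKr, abs_le]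
  constructor
  · nlinarith
  · nlinarith

/-- the cover -/
theorem bu_cover (h0 : 0 < s) (h1 : s ≤ 1 / 2) : ∃ (K : ℕ) (C : ℝ), 0 < K ∧ 0 < C ∧
    (∀ θ, 1 ≤ C * ∑ j ∈ Finset.range K, bu s (θ + 2 * π * j / K)) ∧
    (∀ θ, |bu' s θ| ≤ C * ∑ j ∈ Finset.range K, bu s (θ + 2 * π * j / K)) := by
  obtain ⟨c, hc0, hc⟩ := bu_ge h0 h1
  have hpi := Real.pi_pos
  have hcs := cos_s_lt h0 h1
  obtain ⟨K, hK⟩ := exists_nat_gt (4 * π / s)
  have hK0 : 0 < K := by
    have : (0:ℝ) < K := lt_trans (by positivity) hK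
    exact_mod_cast this
  have hKr : (0:ℝ) < K := by exact_mod_cast hK0
  have hKs : 2 * π / K ≤ s / 2 := by
    rw [div_lt_iff₀ h0] at hK
    rw [div_le_iff₀ hKr]
    linarith
  have key : ∀ θ, c ≤ ∑ j ∈ Finset.range K, bu s (θ + 2 * π * j / K) := by
    intro θ
    obtain ⟨j, hj, m, hm⟩ := near_mult hK0 θ
    have h2 : c ≤ bu s (θ + 2 * π * j / K) := by
      have h3 := hc _ (hm.trans hKs)
      rwa [(bu_per s).sub_int_mul_eq] at h3
    exact h2.trans (Finset.single_le_sum (f := fun j : ℕ => bu s (θ + 2 * π * j / K))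
      (fun i _ => bu_nonneg s _) hj)
  obtain ⟨D, hD⟩ : ∃ D, D = 2 / (1 - cos s) := ⟨_, rfl⟩
  have h1s : 0 < 1 - cos s := by linarith
  have hD0 : 0 < D := by rw [hD]; positivity
  have hb : ∀ θ, |bu' s θ| ≤ D := by
    intro θ
    unfold bu'
    rw [abs_div, abs_of_pos (by positivity : 0 < (1 - cos s) ^ 2), div_le_iff₀ (by positivity), hD]
    have e : 2 / (1 - cos s) * (1 - cos s) ^ 2 = 2 * (1 - cos s) := by field_simp
    rw [e, abs_mul, abs_mul, abs_neg, abs_of_pos (by norm_num : (0:ℝ) < 2),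
      abs_of_nonneg (le_max_left _ _)]
    have h2 : max 0 (cos θ - cos s) ≤ 1 - cos s :=
      max_le h1s.le (by linarith [Real.cos_le_one θ])
    have h3 := Real.abs_sin_le_one θ
    have h4 : (0:ℝ) ≤ max 0 (cos θ - cos s) := le_max_left _ _
    have h5 := abs_nonneg (sin θ)
    nlinarith
  refine ⟨K, (1 + D) / c, hK0, by positivity, fun θ => ?_, fun θ => ?_⟩
  · have := key θ
    rw [div_mul_eq_mul_div, le_div_iff₀ hc0]
    nlinarith
  · have h2 := key θ
    refine (hb θ).trans ?_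
    rw [div_mul_eq_mul_div, le_div_iff₀ hc0]
    nlinarith

end Pool.Agent.Helper52.CK
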