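import Pool.Agent.Helper52.CK.AsmB
import Pool.Agent.Helper58.CK.Fin
import Pool.Agent.Helper70.EK.WfCont
set_option autoImplicit false
open Complex MeasureTheory Metric Set
open scoped Real ComplexConjugate ContDiff

/-! Project CK: assembly. -/

namespace Pool.Agent.Helper52.CK

open Pool.Agent.Helper39.Area Pool.Agent.Helper52.EK Pool.Agent.Helper9.EK

/-- the mean over the whole circle is dominated by the localised means of the rotations -/
theorem full_le {κ : ℝ} {u : ℝ → ℝ} (cu : Continuous u) (up : Function.Periodic u (2 * π))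
    {K : ℕ} {Cu B l : ℝ} (hCu : 0 ≤ Cu)
    (cov : ∀ θ, 1 ≤ Cu * ∑ j ∈ Finset.range K, u (θ + 2 * π * j / K))
    {β : ℂ → ℂ} {R : ℝ} (h : ExtR β R)
    (hB : ∀ γ : ℂ → ℂ, ExtR γ R → mm κ u γ l ≤ B) :
    (2 * π)⁻¹ * ∫ θ in (-π)..π, FF κ β (Real.exp (-l)) θ ≤ Cu * K * B := by
  have hpi := Real.pi_pos
  have hx := Real.exp_pos (-l)
  have cF := FF_cont_th κ h hx
  have h1 : ∫ θ in (-π)..π, FF κ β (Real.exp (-l)) θ ≤ ∫ θ in (-π)..π,
      Cu * ∑ j ∈ Finset.range K, u (θ + 2 * π * j / K) * FF κ β (Real.exp (-l)) θ := by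
    refine intervalIntegral.integral_mono_on (by linarith) (cF.intervalIntegrable _ _) ?_ ?_
    · refine Continuous.intervalIntegrable ?_ _ _
      exact continuous_const.mul (continuous_finsetSum _ fun j _ =>
        (cu.comp (by fun_prop)).mul cF)
    · intro θ _
      rw [← Finset.sum_mul, ← mul_assoc]
      exact le_mul_of_one_le_left (FF_pos κ h hx θ).le (cov θ)
  rw [intervalIntegral.integral_const_mul, intervalIntegral.integral_finsetSum] at h1
  · have h2 : ∀ j ∈ Finset.range K,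
        ∫ θ in (-π)..π, u (θ + 2 * π * j / K) * FF κ β (Real.exp (-l)) θ ≤ 2 * π * B := by
      intro j _
      rw [rot_int up, two_pi_mm]
      exact mul_le_mul_of_nonneg_left (hB _ (rot_ExtR h _)) (by positivity)
    have h3 := Finset.sum_le_sum h2
    rw [Finset.sum_const, Finset.card_range, nsmul_eq_mul] at h3
    have h4 := h1.trans (mul_le_mul_of_nonneg_left h3 hCu)
    have h5 := mul_le_mul_of_nonneg_left h4 (by positivity : 0 ≤ (2 * π)⁻¹)
    refine h5.trans (le_of_eq ?_)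
    field_simp
  · intro j _
    exact Continuous.intervalIntegrable ((cu.comp (by fun_prop)).mul cF) _ _

/-- **Assembly**: the exponent of the circle means. -/
theorem asm {κ dl Mb : ℝ} (hκ : 1 ≤ κ) (hdl : 0 ≤ dl) (hMb : 0 ≤ Mb) (hMb2 : Mb < 2 * κ)
    {G : ℂ → ℂ} {Mh : (ℂ → ℂ) → ℂ → ℂ}
    (hG : ∀ (β : ℂ → ℂ) (R : ℝ), ExtR β R → ContinuousOn (wf G β) {z | 0 < ‖z‖ ∧ ‖z‖ < 1})
    (hMc : ∀ (β : ℂ → ℂ) (R : ℝ), ExtR β R → ContinuousOn (Mh β) {z | 0 < ‖z‖ ∧ ‖z‖ < 1})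
    (hM : ∀ β z, ‖Mh β z‖ ≤ Mb) (near : NearStmt κ) (mint : MIntStmt κ dl)
    (mcont : MContStmt κ dl) (ent : EntStmt) (pt : PTStmt κ dl G Mh) (lip : LipStmt κ) :
    ∀ e : ℝ, 0 < e → ∃ C a₀ : ℝ, a₀ < 1 ∧ ∀ (β : ℂ → ℂ) (R a : ℝ), ExtR β R → a₀ < a → a < 1 →
      (2 * π)⁻¹ * (∫ α in (0:ℝ)..(2 * π), ‖N β (a * Complex.exp (α * I))‖ ^ (-κ)) ≤
        C * (1 - a ^ 2) ^ (-(κ - 1 + dl + e)) := by
  intro e he
  have hpi := Real.pi_pos
  obtain ⟨C₀, hC₀, pt⟩ := pt
  have hth0 : 0 ≤ Mb / (2 * κ) := by positivity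
  have hth1 : Mb / (2 * κ) < 1 := by
    rw [div_lt_one (by linarith)]
    exact hMb2
  obtain ⟨ε₁, hε₁, EX⟩ := Pool.Agent.Helper96.CK.exp_lemma3 (C₀ := C₀ + 1) hth0 hth1
    (by linarith) e he
  obtain ⟨ε, hε⟩ : ∃ ε, ε = min ε₁ 1 := ⟨_, rfl⟩
  have hε0 : 0 < ε := by rw [hε]; exact lt_min hε₁ one_pos
  have hε1 : ε ≤ 1 := by rw [hε]; exact min_le_right _ _
  have hε2 : ε ≤ ε₁ := by rw [hε]; exact min_le_left _ _
  obtain ⟨s, C, hs0, hs1, hC, pt⟩ := pt ε hε0
  have hwin := window hκ hMb hG hMc hM near mint mcont ent hC₀ hε0 hε1 hs0 hs1 hC pt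
  obtain ⟨A, hA, lip⟩ := lip
  have cu : Continuous (bu s) := bu_cont s
  have hu0 : 0 < bu s 0 := bu_pos_zero hs0 hs1
  -- `WindowAt` for `ε₁`
  have hwin2 : Pool.Agent.Helper96.CK.WindowAt
      (fun i : {β : ℂ → ℂ // ∃ R : ℝ, ExtR β R} => GG κ dl (bu s) i.1)
      (Mb / (2 * κ)) (C₀ + 1) ε₁ := by
    obtain ⟨C₁, hC₁, H⟩ := hwin
    refine ⟨C₁, hC₁, fun n hn w hw hwn hw0 hwp η hη => ?_⟩
    obtain ⟨i, hi1, hi2⟩ := H n hn w hw hwn hw0 hwp η hη
    refine ⟨i, hi1, hi2.trans ?_⟩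
    obtain ⟨β, R, hβ⟩ := i
    have cg : Continuous (GG κ dl (bu s) β) := GG_cont hβ cu (bu_nonneg s) hu0
    have ceg : Continuous fun l => Real.exp (GG κ dl (bu s) β l) := Real.continuous_exp.comp cg
    have cw : Continuous w := hw.continuous
    have hle : ∫ l in n..(2 * n), Real.exp (GG κ dl (bu s) β l) * w l *
        (C₁ + ε * n + (C₀ + 1) * (l - n)) ≤ ∫ l in n..(2 * n),
          Real.exp (GG κ dl (bu s) β l) * w l * (C₁ + ε₁ * n + (C₀ + 1) * (l - n)) := by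
      refine intervalIntegral.integral_mono_on (by linarith) ?_ ?_ ?_
      · exact ((ceg.mul cw).mul (by fun_prop)).intervalIntegrable _ _
      · exact ((ceg.mul cw).mul (by fun_prop)).intervalIntegrable _ _
      · intro l _
        refine mul_le_mul_of_nonneg_left ?_ (mul_nonneg (Real.exp_pos _).le (hwn l))
        have : ε * n ≤ ε₁ * n := mul_le_mul_of_nonneg_right hε2 (by linarith)
        linarith
    have hle2 := add_le_add_left (add_le_add_left hle
      ((Mb / (2 * κ) * n + C₁) * ∫ l in n..(2 * n), Real.exp (GG κ dl (bu s) β l) *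
        |deriv w l|)) η
    exact hle2
  -- Lipschitz
  have hm2 : ∀ (β : ℂ → ℂ) (R : ℝ), ExtR β R → ∀ l l' : ℝ, 2 ≤ l → 2 ≤ l' →
      mm κ (bu s) β l ≤ Real.exp (A * |l - l'|) * mm κ (bu s) β l' := by
    intro β R hβ l l' hl hl'
    unfold mm
    have h1 : ∫ θ in (-π)..π, bu s θ * FF κ β (Real.exp (-l)) θ ≤
        ∫ θ in (-π)..π, Real.exp (A * |l - l'|) * (bu s θ * FF κ β (Real.exp (-l')) θ) := by
      refine intervalIntegral.integral_mono_on (by linarith) ?_ ?_ ?_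
      · exact (cu.mul (FF_cont_th κ hβ (Real.exp_pos _))).intervalIntegrable _ _
      · exact (continuous_const.mul (cu.mul (FF_cont_th κ hβ
          (Real.exp_pos _)))).intervalIntegrable _ _
      · intro θ _
        have h2 := mul_le_mul_of_nonneg_left ((lip β R hβ).1 l l' θ hl hl') (bu_nonneg s θ)
        calc _ ≤ _ := h2
          _ = _ := by ring
    rw [intervalIntegral.integral_const_mul] at h1
    calc _ ≤ (2 * π)⁻¹ * (Real.exp (A * |l - l'|) *
          ∫ θ in (-π)..π, bu s θ * FF κ β (Real.exp (-l')) θ) :=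
          mul_le_mul_of_nonneg_left h1 (by positivity)
      _ = _ := by ring
  have hlog : ∀ (β : ℂ → ℂ) (R : ℝ), ExtR β R → ∀ l l' : ℝ, 2 ≤ l → 2 ≤ l' →
      Real.log (mm κ (bu s) β l) - Real.log (mm κ (bu s) β l') ≤ A * |l - l'| := by
    intro β R hβ l l' hl hl'
    have hp := mm_pos (κ := κ) hβ cu (bu_nonneg s) hu0 l
    have hp' := mm_pos (κ := κ) hβ cu (bu_nonneg s) hu0 l'
    have h1 := Real.log_le_log hp (hm2 β R hβ l l' hl hl')
    rw [Real.log_mul (Real.exp_pos _).ne' hp'.ne', Real.log_exp] at h1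
    linarith
  obtain ⟨A', hA'⟩ : ∃ A', A' = A + (κ - 1 + dl) := ⟨_, rfl⟩
  have hA'0 : 0 ≤ A' := by rw [hA']; linarith
  obtain ⟨K, hK⟩ := EX (ι := {β : ℂ → ℂ // ∃ R : ℝ, ExtR β R})
    (G := fun i => GG κ dl (bu s) i.1) (A := A') hA'0 (by
      rintro ⟨β, R, hβ⟩
      have hp := mm_pos (κ := κ) hβ cu (bu_nonneg s) hu0 2
      have h1 : mm κ (bu s) β 2 ≤ Real.exp A := by
        unfold mm
        have h2 : ∫ θ in (-π)..π, bu s θ * FF κ β (Real.exp (-2)) θ ≤
            ∫ _θ in (-π)..π, Real.exp A := by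
          refine intervalIntegral.integral_mono_on (by linarith) ?_
            intervalIntegrable_const ?_
          · exact (cu.mul (FF_cont_th κ hβ (Real.exp_pos _))).intervalIntegrable _ _
          · intro θ _
            have h3 := (lip β R hβ).2 θ
            have h4 := (FF_pos κ hβ (Real.exp_pos (-2)) θ).le
            calc _ ≤ 1 * FF κ β (Real.exp (-2)) θ :=
                  mul_le_mul_of_nonneg_right (bu_le_one hs0 hs1 θ) h4
              _ ≤ _ := by rw [one_mul]; exact h3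
        rw [intervalIntegral.integral_const, smul_eq_mul] at h2
        have h5 := mul_le_mul_of_nonneg_left h2 (by positivity : 0 ≤ (2 * π)⁻¹)
        refine h5.trans (le_of_eq ?_)
        field_simp
        ring
      have h6 := Real.log_le_log hp h1
      rw [Real.log_exp] at h6
      have h7 : GG κ dl (bu s) β 0 = Real.log (mm κ (bu s) β 2) - (κ - 1 + dl) * 2 := by
        unfold GG
        norm_num
      show GG κ dl (bu s) β 0 ≤ A'
      rw [h7, hA']
      nlinarith) (by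
      rintro ⟨β, R, hβ⟩ l l' hl hl'
      show |GG κ dl (bu s) β l - GG κ dl (bu s) β l'| ≤ A' * |l - l'|
      have h1 := hlog β R hβ (l + 2) (l' + 2) (by linarith) (by linarith)
      have h2 := hlog β R hβ (l' + 2) (l + 2) (by linarith) (by linarith)
      have e1 : l + 2 - (l' + 2) = l - l' := by ring
      have e2 : l' + 2 - (l + 2) = -(l - l') := by ring
      rw [e1] at h1
      rw [e2, abs_neg] at h2
      have h3 : (κ - 1 + dl) * (l - l') ≤ (κ - 1 + dl) * |l - l'| :=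
        mul_le_mul_of_nonneg_left (le_abs_self _) (by linarith)
      have h4 : (κ - 1 + dl) * (-(l - l')) ≤ (κ - 1 + dl) * |l - l'| :=
        mul_le_mul_of_nonneg_left (neg_le_abs _) (by linarith)
      unfold GG
      rw [hA', abs_le]
      constructor <;> linarith) hwin2
  -- conclusion
  obtain ⟨Kn, Cu, hKn, hCu, cov, -⟩ := bu_cover hs0 hs1
  obtain ⟨S, hS⟩ : ∃ S, S = κ - 1 + dl + e := ⟨_, rfl⟩
  have hS0 : 0 < S := by rw [hS]; linarith
  refine ⟨Cu * Kn * Real.exp K * 2 ^ S, Real.exp (-Real.exp (-2)), ?_, ?_⟩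
  · rw [Real.exp_lt_one_iff]
    have := Real.exp_pos (-2)
    linarith
  intro β R a hβ ha0 ha1
  have hapos : 0 < a := (Real.exp_pos _).trans ha0
  obtain ⟨x, hx⟩ : ∃ x, x = -Real.log a := ⟨_, rfl⟩
  have hx0 : 0 < x := by
    rw [hx]
    have := Real.log_neg hapos ha1
    linarith
  have hx2 : x ≤ Real.exp (-2) := by
    have := Real.log_le_log (Real.exp_pos _) ha0.le
    rw [Real.log_exp] at this
    rw [hx]
    linarith
  obtain ⟨l, hl⟩ : ∃ l, l = -Real.log x := ⟨_, rfl⟩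
  have hl2 : 2 ≤ l := by
    have := Real.log_le_log hx0 hx2
    rw [Real.log_exp] at this
    rw [hl]
    linarith
  have hxl : x = Real.exp (-l) := by rw [hl, neg_neg, Real.exp_log hx0]
  have hxa : Real.exp (-x) = a := by rw [hx, neg_neg, Real.exp_log hapos]
  have hB : ∀ γ : ℂ → ℂ, ExtR γ R → mm κ (bu s) γ l ≤ Real.exp K * Real.exp (S * l) := by
    intro γ hγ
    have h1 := hK ⟨γ, R, hγ⟩ (l - 2) (by linarith)
    have h2 : GG κ dl (bu s) γ (l - 2) ≤ K + e * (l - 2) := h1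
    have e1 : l - 2 + 2 = l := by ring
    unfold GG at h2
    rw [e1] at h2
    have hp := mm_pos (κ := κ) hγ cu (bu_nonneg s) hu0 l
    rw [← Real.exp_add]
    calc mm κ (bu s) γ l = Real.exp (Real.log (mm κ (bu s) γ l)) := (Real.exp_log hp).symm
      _ ≤ _ := Real.exp_le_exp.2 (by rw [hS]; nlinarith)
  have hfull := full_le cu (bu_per s) hCu.le cov hβ hB
  -- the integral over `0..2π`
  have hN : ∀ α : ℝ, ‖N β (a * Complex.exp (α * I))‖ ^ (-κ) = FF κ β (Real.exp (-l)) α := by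
    intro α
    unfold FF
    congr 3
    rw [← hxl]
    unfold ep
    rw [Complex.exp_add, ← Complex.ofReal_exp, hxa]
  have hper : Function.Periodic (FF κ β (Real.exp (-l))) (2 * π) := FF_per κ β _
  have hshift := hper.intervalIntegral_add_eq 0 (-π)
  rw [zero_add, show -π + 2 * π = π by ring] at hshift
  simp only [hN]
  rw [hshift]
  refine hfull.trans ?_
  have h1a : 0 < 1 - a ^ 2 := by nlinarith
  have hxge : (1 - a ^ 2) / 2 ≤ x := by
    have := Real.add_one_le_exp (-x)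
    rw [hxa] at this
    nlinarith
  have h9 : Real.exp (S * l) ≤ 2 ^ S * (1 - a ^ 2) ^ (-S) := by
    have e1 : Real.exp (S * l) = x ^ (-S) := by
      rw [Real.rpow_def_of_pos hx0, hl]
      congr 1
      ring
    rw [e1]
    calc x ^ (-S) ≤ ((1 - a ^ 2) / 2) ^ (-S) :=
          Real.rpow_le_rpow_of_nonpos (by positivity) hxge (by linarith)
      _ = _ := by
          rw [Real.div_rpow h1a.le (by norm_num), Real.rpow_neg (by norm_num : (0:ℝ) ≤ 2),
            div_inv_eq_mul, mul_comm]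
  rw [← hS]
  calc Cu * Kn * (Real.exp K * Real.exp (S * l)) = Cu * Kn * Real.exp K * Real.exp (S * l) := by
        ring
    _ ≤ Cu * Kn * Real.exp K * (2 ^ S * (1 - a ^ 2) ^ (-S)) :=
        mul_le_mul_of_nonneg_left h9 (by positivity)
    _ = _ := by ring

/-- the class Σ and all larger powers -/
theorem asmS {κ dl Mb : ℝ} (hκ : 1 ≤ κ) (hdl : 0 ≤ dl) (hMb : 0 ≤ Mb) (hMb2 : Mb < 2 * κ)
    {G : ℂ → ℂ} {Mh : (ℂ → ℂ) → ℂ → ℂ}
    (hG : ∀ (β : ℂ → ℂ) (R : ℝ), ExtR β R → ContinuousOn (wf G β) {z | 0 < ‖z‖ ∧ ‖z‖ < 1})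
    (hMc : ∀ (β : ℂ → ℂ) (R : ℝ), ExtR β R → ContinuousOn (Mh β) {z | 0 < ‖z‖ ∧ ‖z‖ < 1})
    (hM : ∀ β z, ‖Mh β z‖ ≤ Mb) (near : NearStmt κ) (mint : MIntStmt κ dl)
    (mcont : MContStmt κ dl) (ent : EntStmt) (pt : PTStmt κ dl G Mh) (lip : LipStmt κ) :
    ∀ p : ℝ, κ ≤ p → ∀ e : ℝ, 0 < e → ∃ C : ℝ, ∀ ψ : ℂ → ℂ,
      DifferentiableOn ℂ ψ {z : ℂ | 1 < ‖z‖} → InjOn ψ {z : ℂ | 1 < ‖z‖} →
      (∃ b : ℂ, Filter.Tendsto (fun z => ψ z - z) (Bornology.cobounded ℂ) (nhds b)) →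
      ∀ R : ℝ, 1 < R →
      (2 * π)⁻¹ * (∫ θ in (0:ℝ)..(2 * π), ‖deriv ψ (R * Complex.exp (θ * I))‖ ^ (-p)) ≤
        C * (R ^ 2 / (R ^ 2 - 1)) ^ (p - 1 + dl + e) := by
  intro p hp e he
  have h1 := asm hκ hdl hMb hMb2 hG hMc hM near mint mcont ent pt lip e he
  have h2 := Pool.Agent.Helper58.CK.moment_ExtS (by linarith) (by linarith) h1 p hp
  have h3 : κ - 1 + dl + e + (p - κ) = p - 1 + dl + e := by ring
  rw [h3] at h2
  exact Pool.Agent.Helper58.CK.finalS h2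

end Pool.Agent.Helper52.CK
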