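import Pool.Agent.Helper52.CK.Om
import Pool.Agent.Helper52.CK.Bump
import Pool.Agent.Helper26.EK.KfCont
set_option autoImplicit false
open Complex MeasureTheory Metric Set
open scoped Real ComplexConjugate ContDiff

/-! Project CK: continuity of the level functions, double integrals, the inequality of one level. -/

namespace Pool.Agent.Helper52.CK

open Pool.Agent.Helper39.Area Pool.Agent.Helper52.EK Pool.Agent.Helper9.EK

theorem FF_comp_cont (κ : ℝ) {β : ℂ → ℂ} {R : ℝ} (h : ExtR β R) {X : Type*} [TopologicalSpace X]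
    {g k : X → ℝ} (hg : Continuous g) (hk : Continuous k) (hpos : ∀ q, 0 < g q) :
    Continuous (fun q => FF κ β (g q) (k q)) := by
  have hmem : ∀ q, ep (-(g q)) (k q) ∈ ball (0:ℂ) R := by
    intro q
    rw [mem_ball_zero_iff, norm_ep]
    have : Real.exp (-(g q)) < 1 := by
      rw [Real.exp_lt_one_iff]
      have := hpos q
      linarith
    exact this.trans h.one_lt
  have hc : Continuous (fun q => ep (-(g q)) (k q)) := by
    unfold ep
    fun_prop
  have hd : ContinuousOn (deriv β) (ball 0 R) := (h.diff.deriv isOpen_ball).continuousOn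
  have h1 : Continuous (fun q => deriv β (ep (-(g q)) (k q))) := hd.comp_continuous hc hmem
  have h2 : Continuous (fun q => N β (ep (-(g q)) (k q))) := by
    unfold N
    exact continuous_const.sub ((hc.pow 2).mul h1)
  have h3 : ∀ q, ‖N β (ep (-(g q)) (k q))‖ ≠ 0 := fun q =>
    norm_ne_zero_iff.2 (h.ne _ (hmem q))
  exact h2.norm.rpow_const fun q => Or.inl (h3 q)

theorem N_comp_cont {β : ℂ → ℂ} {R x : ℝ} (h : ExtR β R) (hx : 0 < x) :
    Continuous (fun θ => Real.log ‖N β (ep (-x) θ)‖) := by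
  have hmem : ∀ θ, ep (-x) θ ∈ ball (0:ℂ) R := by
    intro q
    rw [mem_ball_zero_iff, norm_ep]
    have : Real.exp (-x) < 1 := by
      rw [Real.exp_lt_one_iff]
      linarith
    exact this.trans h.one_lt
  have hc : Continuous (fun q => ep (-x) q) := by
    unfold ep
    fun_prop
  have hd : ContinuousOn (deriv β) (ball 0 R) := (h.diff.deriv isOpen_ball).continuousOn
  have h1 : Continuous (fun q => deriv β (ep (-x) q)) := hd.comp_continuous hc hmem
  have h2 : Continuous (fun q => N β (ep (-x) q)) := by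
    unfold N
    exact continuous_const.sub ((hc.pow 2).mul h1)
  exact h2.norm.log fun q => norm_ne_zero_iff.2 (h.ne _ (hmem q))

section means

variable {κ dl : ℝ} {u : ℝ → ℝ} {β : ℂ → ℂ} {R : ℝ}

theorem mm_cont (h : ExtR β R) (cu : Continuous u) : Continuous (mm κ u β) := by
  unfold mm
  refine continuous_const.mul ?_
  refine intervalIntegral.continuous_parametric_intervalIntegral_of_continuous'
    (f := fun l θ => u θ * FF κ β (Real.exp (-l)) θ) ?_ _ _
  have h1 := FF_comp_cont κ h (g := fun q : ℝ × ℝ => Real.exp (-q.1)) (k := fun q => q.2)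
    (by fun_prop) (by fun_prop) (fun q => Real.exp_pos _)
  exact (cu.comp continuous_snd).mul h1

theorem int_pos (h : ExtR β R) (cu : Continuous u) (u0 : ∀ θ, 0 ≤ u θ) (hu : 0 < u 0) {x : ℝ}
    (hx : 0 < x) : 0 < ∫ θ in (-π)..π, u θ * FF κ β x θ := by
  have hpi := Real.pi_pos
  refine intervalIntegral.integral_pos (by linarith) ?_ ?_ ?_
  · exact (cu.mul (FF_cont_th κ h hx)).continuousOn
  · intro θ _
    exact mul_nonneg (u0 θ) (FF_pos κ h hx θ).le
  · exact ⟨0, ⟨by linarith, hpi.le⟩, mul_pos hu (FF_pos κ h hx 0)⟩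

theorem mm_pos (h : ExtR β R) (cu : Continuous u) (u0 : ∀ θ, 0 ≤ u θ) (hu : 0 < u 0) (l : ℝ) :
    0 < mm κ u β l := by
  unfold mm
  exact mul_pos (by positivity) (int_pos h cu u0 hu (Real.exp_pos _))

theorem GG_cont (h : ExtR β R) (cu : Continuous u) (u0 : ∀ θ, 0 ≤ u θ) (hu : 0 < u 0) :
    Continuous (GG κ dl u β) := by
  unfold GG
  have h1 : Continuous fun l : ℝ => mm κ u β (l + 2) :=
    (mm_cont h cu).comp (continuous_id.add continuous_const)
  exact (h1.log fun l => (mm_pos h cu u0 hu _).ne').sub (by fun_prop)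

end means

/-! ### double integrals -/

theorem RR_inner_cont {a : ℝ} {F : ℝ → ℝ → ℝ}
    (hF : Continuous (fun q : ℝ × ℝ => F (max a q.1) q.2)) :
    ContinuousOn (fun x => ∫ θ in (-π)..π, F x θ) (Ici a) := by
  have h : Continuous (fun x => ∫ θ in (-π)..π, F (max a x) θ) :=
    intervalIntegral.continuous_parametric_intervalIntegral_of_continuous'
      (f := fun x θ => F (max a x) θ) hF _ _
  refine h.continuousOn.congr fun x hx => ?_
  simp only [max_eq_right (Set.mem_Ici.1 hx)]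

theorem RR_inner_int {a b : ℝ} (hab : a ≤ b) {F : ℝ → ℝ → ℝ}
    (hF : Continuous (fun q : ℝ × ℝ => F (max a q.1) q.2)) :
    IntervalIntegrable (fun x => ∫ θ in (-π)..π, F x θ) volume a b := by
  refine ContinuousOn.intervalIntegrable ?_
  rw [uIcc_of_le hab]
  exact (RR_inner_cont hF).mono Icc_subset_Ici_self

theorem slice {a x : ℝ} (hx : a ≤ x) {F : ℝ → ℝ → ℝ}
    (hF : Continuous (fun q : ℝ × ℝ => F (max a q.1) q.2)) : Continuous (F x) := by
  have h1 := hF.comp (Continuous.prodMk_right x)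
  refine h1.congr fun θ => ?_
  simp [Function.comp, max_eq_right hx]

theorem RR_mono {a b : ℝ} (hab : a ≤ b) {F H : ℝ → ℝ → ℝ}
    (hF : Continuous (fun q : ℝ × ℝ => F (max a q.1) q.2))
    (hH : Continuous (fun q : ℝ × ℝ => H (max a q.1) q.2))
    (hle : ∀ x θ, a ≤ x → x ≤ b → F x θ ≤ H x θ) : RR a b F ≤ RR a b H := by
  unfold RR
  have hpi := Real.pi_pos
  refine intervalIntegral.integral_mono_on hab (RR_inner_int hab hF) (RR_inner_int hab hH)
    fun x hx => ?_
  exact intervalIntegral.integral_mono_on (by linarith)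
    ((slice hx.1 hF).intervalIntegrable _ _) ((slice hx.1 hH).intervalIntegrable _ _)
    fun θ _ => hle x θ hx.1 hx.2

theorem RR_sum {a b : ℝ} (hab : a ≤ b) (K : ℕ) (C : ℝ) {F : ℕ → ℝ → ℝ → ℝ}
    (hF : ∀ j, Continuous (fun q : ℝ × ℝ => F j (max a q.1) q.2)) :
    RR a b (fun x θ => C * ∑ j ∈ Finset.range K, F j x θ) =
      C * ∑ j ∈ Finset.range K, RR a b (F j) := by
  unfold RR
  have h1 : ∀ x ∈ uIcc a b, ∫ θ in (-π)..π, C * ∑ j ∈ Finset.range K, F j x θ =
      C * ∑ j ∈ Finset.range K, ∫ θ in (-π)..π, F j x θ := by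
    intro x hx
    rw [uIcc_of_le hab] at hx
    rw [intervalIntegral.integral_const_mul, intervalIntegral.integral_finsetSum]
    intro j _
    exact (slice hx.1 (hF j)).intervalIntegrable _ _
  rw [intervalIntegral.integral_congr h1, intervalIntegral.integral_const_mul,
    intervalIntegral.integral_finsetSum]
  intro j _
  exact RR_inner_int hab (hF j)

/-! ### one level -/

theorem one_sub_exp_ge {x : ℝ} (h0 : 0 < x) (h1 : x ≤ 1 / 4) : x ≤ 1 - Real.exp (-2 * x) := by
  have h2 : 1 + 2 * x ≤ Real.exp (2 * x) := by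
    have := Real.add_one_le_exp (2 * x)
    linarith
  have h3 : Real.exp (-2 * x) = (Real.exp (2 * x))⁻¹ := by
    rw [← Real.exp_neg]
    congr 1
    ring
  have h4 : (Real.exp (2 * x))⁻¹ ≤ (1 + 2 * x)⁻¹ := inv_anti₀ (by positivity) h2
  have h5 : (1 + 2 * x)⁻¹ ≤ 1 - x := by
    rw [inv_le_iff_one_le_mul₀ (by positivity)]
    nlinarith
  rw [h3]
  linarith

/-- the inequality of one level: entropy and the inequality of the targets -/
theorem level {κ dl CE C C₀ ε s n x : ℝ} {β : ℂ → ℂ} {R : ℝ} (h : ExtR β R) {w : ℂ → ℂ}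
    (hκ : 1 ≤ κ) (hw : ContinuousOn w {z | 0 < ‖z‖ ∧ ‖z‖ < 1}) {u : ℝ → ℝ} (cu : Continuous u)
    (u0 : ∀ θ, 0 ≤ u θ) (us : ∀ θ ∈ Icc (-π) π, u θ ≠ 0 → |θ| ≤ s) (hx : 0 < x)
    (hx4 : x ≤ 1 / 4) {Mx : ℝ → ℝ} (cM : Continuous Mx) {m : ℝ}
    (hm : m = (2 * π)⁻¹ * ∫ θ in (-π)..π, u θ * FF κ β x θ) (hm0 : 0 < m)
    (hE : m * Real.log m ≤ m * (Real.log (1 - Real.exp (-2 * x)) + CE) +
      (2 * π)⁻¹ * ∫ θ in (-π)..π, u θ * FF κ β x θ *
        (Kf w (Complex.exp (θ * I)) (-1) (-x) - κ * Real.log ‖N β (ep (-x) θ)‖))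
    (hP : ∀ θ, |θ| ≤ s → Kf w (Complex.exp (θ * I)) (-1) (-x) ≤
      κ * Real.log (‖N β (ep (-x) θ)‖ / (1 - Real.exp (-2 * x))) +
        Mx θ + C + (dl + ε) * (-Real.log x) + C₀ * (-Real.log x - n)) :
    m * Real.log m ≤ m * ((κ - 1) * (-Real.log x) + CE + C + (dl + ε) * (-Real.log x) +
      C₀ * (-Real.log x - n)) + (2 * π)⁻¹ * ∫ θ in (-π)..π, u θ * FF κ β x θ * Mx θ := by
  have hpi := Real.pi_pos
  have hge := one_sub_exp_ge hx hx4
  have h1e : 0 < 1 - Real.exp (-2 * x) := hx.trans_le hge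
  have cF := FF_cont_th κ h hx
  have cK : Continuous fun θ : ℝ => Kf w (Complex.exp (θ * I)) (-1) (-x) :=
    Pool.Agent.Helper26.EK.Kf_cont hw (by linarith) (by linarith)
  have cN := N_comp_cont h hx
  obtain ⟨c, hc⟩ : ∃ c : ℝ, c = -κ * Real.log (1 - Real.exp (-2 * x)) + C +
    (dl + ε) * (-Real.log x) + C₀ * (-Real.log x - n) := ⟨_, rfl⟩
  have hint : ∫ θ in (-π)..π, u θ * FF κ β x θ *
        (Kf w (Complex.exp (θ * I)) (-1) (-x) - κ * Real.log ‖N β (ep (-x) θ)‖) ≤
      ∫ θ in (-π)..π, (c * (u θ * FF κ β x θ) + u θ * FF κ β x θ * Mx θ) := by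
    refine intervalIntegral.integral_mono_on (by linarith) ?_ ?_ ?_
    · exact ((cu.mul cF).mul (cK.sub (continuous_const.mul cN))).intervalIntegrable _ _
    · exact ((continuous_const.mul (cu.mul cF)).add ((cu.mul cF).mul cM)).intervalIntegrable _ _
    · intro θ hθ
      by_cases hu : u θ = 0
      · simp [hu]
      · have h1 := hP θ (us θ hθ hu)
        have hNpos : 0 < ‖N β (ep (-x) θ)‖ := by
          refine norm_pos_iff.2 (h.ne _ ?_)
          rw [mem_ball_zero_iff, norm_ep]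
          have : Real.exp (-x) < 1 := by
            rw [Real.exp_lt_one_iff]
            linarith
          exact this.trans h.one_lt
        rw [Real.log_div hNpos.ne' h1e.ne'] at h1
        have h2 : Kf w (Complex.exp (θ * I)) (-1) (-x) - κ * Real.log ‖N β (ep (-x) θ)‖ ≤
            c + Mx θ := by
          rw [hc]
          linarith
        have h3 : 0 ≤ u θ * FF κ β x θ := mul_nonneg (u0 θ) (FF_pos κ h hx θ).le
        calc _ ≤ u θ * FF κ β x θ * (c + Mx θ) := mul_le_mul_of_nonneg_left h2 h3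
          _ = _ := by ring
  have hi1 : IntervalIntegrable (fun θ => c * (u θ * FF κ β x θ)) volume (-π) π :=
    (continuous_const.mul (cu.mul cF)).intervalIntegrable _ _
  have hi2 : IntervalIntegrable (fun θ => u θ * FF κ β x θ * Mx θ) volume (-π) π :=
    ((cu.mul cF).mul cM).intervalIntegrable _ _
  rw [intervalIntegral.integral_add hi1 hi2, intervalIntegral.integral_const_mul] at hint
  have h4 : (2 * π)⁻¹ * ∫ θ in (-π)..π, u θ * FF κ β x θ *
        (Kf w (Complex.exp (θ * I)) (-1) (-x) - κ * Real.log ‖N β (ep (-x) θ)‖) ≤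
      c * m + (2 * π)⁻¹ * ∫ θ in (-π)..π, u θ * FF κ β x θ * Mx θ := by
    refine (mul_le_mul_of_nonneg_left hint (by positivity)).trans (le_of_eq ?_)
    rw [hm]
    ring
  have h5 : Real.log x ≤ Real.log (1 - Real.exp (-2 * x)) := Real.log_le_log hx hge
  have h6 : (1 - κ) * Real.log (1 - Real.exp (-2 * x)) ≤ (κ - 1) * (-Real.log x) := by
    nlinarith
  have h7 := mul_le_mul_of_nonneg_left h6 hm0.le
  rw [hc] at h4
  nlinarith [h4, h7, hE]

end Pool.Agent.Helper52.CK
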