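import Pool.Agent.Helper52.CK.Defs
import Pool.Agent.Helper9.EK.Rot
set_option autoImplicit false
open Complex MeasureTheory Metric Set
open scoped Real ComplexConjugate ContDiff

/-! Project CK: the radial weight, the change of variables `x = e^(-(l+2))`, and the level
functions. -/

namespace Pool.Agent.Helper52.CK

open Pool.Agent.Helper39.Area Pool.Agent.Helper52.EK Pool.Agent.Helper9.EK

/-! ### the radial weight -/

noncomputable def omw (w : ℝ → ℝ) (p x : ℝ) : ℝ :=
  if 0 < x then w (-Real.log x - 2) * x ^ p else 0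

noncomputable def omw' (w : ℝ → ℝ) (p x : ℝ) : ℝ :=
  if 0 < x then (-deriv w (-Real.log x - 2) + p * w (-Real.log x - 2)) * x ^ (p - 1) else 0

section weight

variable {w : ℝ → ℝ} {n p : ℝ}

theorem omw_pos {x : ℝ} (hx : 0 < x) : omw w p x = w (-Real.log x - 2) * x ^ p := if_pos hx

theorem omw'_pos {x : ℝ} (hx : 0 < x) : omw' w p x =
    (-deriv w (-Real.log x - 2) + p * w (-Real.log x - 2)) * x ^ (p - 1) := if_pos hx

theorem w_far (hw0 : ∀ l, l ∉ Icc n (2 * n) → w l = 0) {l : ℝ} (hl : 2 * n < l) :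
    w l = 0 ∧ deriv w l = 0 := by
  refine ⟨hw0 l fun h => absurd h.2 (not_le.2 hl), ?_⟩
  have h1 : w =ᶠ[nhds l] fun _ => 0 := by
    filter_upwards [Ioi_mem_nhds hl] with y hy
    exact hw0 y fun h => absurd h.2 (not_le.2 hy)
  rw [h1.deriv_eq]
  simp

theorem omw_small (hw0 : ∀ l, l ∉ Icc n (2 * n) → w l = 0) {x : ℝ}
    (hx : x < Real.exp (-(2 * n + 2))) : omw w p x = 0 ∧ omw' w p x = 0 := by
  by_cases h0 : 0 < x
  · have h1 : 2 * n < -Real.log x - 2 := by
      have := Real.log_lt_log h0 hx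
      rw [Real.log_exp] at this
      linarith
    obtain ⟨h2, h3⟩ := w_far hw0 h1
    rw [omw_pos h0, omw'_pos h0, h2, h3]
    simp
  · exact ⟨if_neg h0, if_neg h0⟩

theorem omw_deriv (hw : ContDiff ℝ ∞ w) (hw0 : ∀ l, l ∉ Icc n (2 * n) → w l = 0) (x : ℝ) :
    HasDerivAt (omw w p) (omw' w p x) x := by
  by_cases h0 : 0 < x
  · have h1 : omw w p =ᶠ[nhds x] fun x => w (-Real.log x - 2) * x ^ p := by
      filter_upwards [Ioi_mem_nhds h0] with y hy
      exact omw_pos hy
    have hd : Differentiable ℝ w := hw.differentiable (by norm_num)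
    have h2 : HasDerivAt (fun x => -Real.log x - 2) (-x⁻¹) x :=
      ((Real.hasDerivAt_log h0.ne').neg).sub_const 2
    have h3 := (hd (-Real.log x - 2)).hasDerivAt.comp x h2
    have h4 := h3.mul (Real.hasDerivAt_rpow_const (x := x) (p := p) (Or.inl h0.ne'))
    refine (h4.congr_of_eventuallyEq h1).congr_deriv ?_
    rw [omw'_pos h0]
    have e : x ^ p = x ^ (p - 1) * x := by
      rw [← Real.rpow_add_one h0.ne']
      congr 1
      ring
    simp only [Function.comp]
    rw [e]
    field_simp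
  · have hx : x < Real.exp (-(2 * n + 2)) := (not_lt.1 h0).trans_lt (Real.exp_pos _)
    have h1 : omw w p =ᶠ[nhds x] fun _ => 0 := by
      filter_upwards [Iio_mem_nhds hx] with y hy
      exact (omw_small hw0 hy).1
    rw [(omw_small (p := p) hw0 hx).2]
    exact (hasDerivAt_const x (0:ℝ)).congr_of_eventuallyEq h1

theorem omw'_cont (hw : ContDiff ℝ ∞ w) (hw0 : ∀ l, l ∉ Icc n (2 * n) → w l = 0) :
    Continuous (omw' w p) := by
  rw [continuous_iff_continuousAt]
  intro x
  by_cases h0 : 0 < x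
  · have h1 : omw' w p =ᶠ[nhds x] fun x =>
        (-deriv w (-Real.log x - 2) + p * w (-Real.log x - 2)) * x ^ (p - 1) := by
      filter_upwards [Ioi_mem_nhds h0] with y hy
      exact omw'_pos hy
    have c1 : Continuous (deriv w) := hw.continuous_deriv (by norm_num)
    have c0 : Continuous w := hw.continuous
    have c2 : ContinuousAt (fun x => -Real.log x - 2) x :=
      ((Real.continuousAt_log h0.ne').neg).sub continuousAt_const
    have c3 : ContinuousAt (fun x : ℝ => x ^ (p - 1)) x :=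
      Real.continuousAt_rpow_const x (p - 1) (Or.inl h0.ne')
    have c4 : ContinuousAt (fun x =>
        (-deriv w (-Real.log x - 2) + p * w (-Real.log x - 2)) * x ^ (p - 1)) x := by
      refine ContinuousAt.mul (ContinuousAt.add ?_ (continuousAt_const.mul ?_)) c3
      · exact (ContinuousAt.comp (f := fun x => -Real.log x - 2) c1.continuousAt c2).neg
      · exact ContinuousAt.comp (f := fun x => -Real.log x - 2) c0.continuousAt c2
    exact c4.congr h1.symm
  · have hx : x < Real.exp (-(2 * n + 2)) := (not_lt.1 h0).trans_lt (Real.exp_pos _)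
    have h1 : omw' w p =ᶠ[nhds x] fun _ => 0 := by
      filter_upwards [Iio_mem_nhds hx] with y hy
      exact (omw_small hw0 hy).2
    exact continuousAt_const.congr h1.symm

theorem omw_nonneg (hwn : ∀ l, 0 ≤ w l) (x : ℝ) : 0 ≤ omw w p x := by
  by_cases h0 : 0 < x
  · rw [omw_pos h0]
    exact mul_nonneg (hwn _) (Real.rpow_nonneg h0.le _)
  · rw [omw, if_neg h0]

theorem w_ends (hw : ContDiff ℝ ∞ w) (hw0 : ∀ l, l ∉ Icc n (2 * n) → w l = 0) :
    w n = 0 ∧ w (2 * n) = 0 := by
  have c0 : Continuous w := hw.continuous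
  have hcl : IsClosed {l | w l = 0} := isClosed_eq c0 continuous_const
  constructor
  · have h1 : Iio n ⊆ {l | w l = 0} := fun l hl => hw0 l fun h => absurd h.1 (not_le.2 hl)
    have h2 := closure_minimal h1 hcl
    rw [closure_Iio] at h2
    exact h2 (Set.mem_Iic.2 le_rfl)
  · have h1 : Ioi (2 * n) ⊆ {l | w l = 0} := fun l hl => hw0 l fun h => absurd h.2 (not_le.2 hl)
    have h2 := closure_minimal h1 hcl
    rw [closure_Ioi] at h2
    exact h2 (Set.mem_Ici.2 le_rfl)

theorem omw_zero (hw : ContDiff ℝ ∞ w) (hw0 : ∀ l, l ∉ Icc n (2 * n) → w l = 0) {x : ℝ}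
    (hx : x ∉ Ioo (Real.exp (-(2 * n + 2))) (Real.exp (-(n + 2)))) : omw w p x = 0 := by
  by_cases h0 : 0 < x
  · rw [omw_pos h0]
    have h1 : w (-Real.log x - 2) = 0 := by
      rcases le_or_gt x (Real.exp (-(2 * n + 2))) with h | h
      · rcases eq_or_lt_of_le h with h | h
        · rw [h, Real.log_exp]
          have e : -(-(2 * n + 2)) - 2 = 2 * n := by ring
          rw [e]
          exact (w_ends hw hw0).2
        · have := (omw_small (p := 0) hw0 h).1
          rw [omw_pos h0, Real.rpow_zero, mul_one] at this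
          exact this
      · have h2 : Real.exp (-(n + 2)) ≤ x := by
          by_contra hlt
          exact hx ⟨h, not_le.1 hlt⟩
        rcases eq_or_lt_of_le h2 with h3 | h3
        · rw [← h3, Real.log_exp]
          have e : -(-(n + 2)) - 2 = n := by ring
          rw [e]
          exact (w_ends hw hw0).1
        · refine hw0 _ fun hm => ?_
          have := Real.log_lt_log (Real.exp_pos _) h3
          rw [Real.log_exp] at this
          linarith [hm.1]
    rw [h1, zero_mul]
  · exact if_neg h0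

theorem omw_id {x : ℝ} (hx : 0 < x) :
    p * omw w p x - x * omw' w p x = deriv w (-Real.log x - 2) * x ^ p := by
  rw [omw_pos hx, omw'_pos hx]
  have e : x ^ p = x ^ (p - 1) * x := by
    rw [← Real.rpow_add_one hx.ne']
    congr 1
    ring
  rw [e]
  ring

theorem exp_le_quarter (hn : 1 ≤ n) : Real.exp (-(n + 2)) ≤ 1 / 4 := by
  have h1 : Real.exp (-(n + 2)) ≤ Real.exp (-2) := Real.exp_le_exp.2 (by linarith)
  have h2 : (2:ℝ) < Real.exp 1 := by
    have := Real.exp_one_gt_d9
    linarith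
  have h3 : Real.exp (-2) = (Real.exp 1 * Real.exp 1)⁻¹ := by
    rw [← Real.exp_add, ← Real.exp_neg]
    norm_num
  have h4 : (Real.exp 1 * Real.exp 1)⁻¹ ≤ (2 * 2 : ℝ)⁻¹ := by
    apply inv_anti₀ (by norm_num)
    nlinarith
  rw [h3] at h1
  refine h1.trans (h4.trans (by norm_num))

/-- the weights of the project -/
theorem omw_Wt (hn : 1 ≤ n) (hw : ContDiff ℝ ∞ w) (hwn : ∀ l, 0 ≤ w l)
    (hw0 : ∀ l, l ∉ Icc n (2 * n) → w l = 0) {u u' : ℝ → ℝ} (du : ∀ θ, HasDerivAt u (u' θ) θ)
    (cu : Continuous u') (u0 : ∀ θ, 0 ≤ u θ) (u1 : ∀ θ, u θ ≤ 1)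
    (up : Function.Periodic u (2 * π)) :
    Wt (omw w p) (omw' w p) u u' (Real.exp (-(2 * n + 2))) (Real.exp (-(n + 2))) where
  a0 := Real.exp_pos _
  ab := Real.exp_lt_exp.2 (by linarith)
  b1 := exp_le_quarter hn
  dom := omw_deriv hw hw0
  com := omw'_cont hw hw0
  om0 := omw_nonneg hwn
  omz := fun _ hx => omw_zero hw hw0 hx
  du := du
  cu := cu
  u0 := u0
  u1 := u1
  up := up

theorem omw_exists_pos (hwp : ∃ l, 0 < w l) : ∃ x, 0 < omw w p x := by
  obtain ⟨l, hl⟩ := hwp
  refine ⟨Real.exp (-(l + 2)), ?_⟩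
  rw [omw_pos (Real.exp_pos _), Real.log_exp]
  have e : -(-(l + 2)) - 2 = l := by ring
  rw [e]
  exact mul_pos hl (Real.rpow_pos_of_pos (Real.exp_pos _) _)

end weight

/-! ### the change of variables -/

theorem sub_exp {n : ℝ} (hn : 0 ≤ n) (f : ℝ → ℝ) :
    ∫ x in Real.exp (-(2 * n + 2))..Real.exp (-(n + 2)), f x =
      ∫ l in n..(2 * n), Real.exp (-(l + 2)) * f (Real.exp (-(l + 2))) := by
  have hn2 : n ≤ 2 * n := by linarith
  have hab : Real.exp (-(2 * n + 2)) ≤ Real.exp (-(n + 2)) := Real.exp_le_exp.2 (by linarith)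
  have himg : (fun l : ℝ => Real.exp (-(l + 2))) '' Icc n (2 * n) =
      Icc (Real.exp (-(2 * n + 2))) (Real.exp (-(n + 2))) := by
    ext x
    constructor
    · rintro ⟨l, hl, rfl⟩
      exact ⟨Real.exp_le_exp.2 (by linarith [hl.2]), Real.exp_le_exp.2 (by linarith [hl.1])⟩
    · intro hx
      have hx0 : 0 < x := (Real.exp_pos _).trans_le hx.1
      refine ⟨-Real.log x - 2, ⟨?_, ?_⟩, ?_⟩
      · have := Real.log_le_log hx0 hx.2
        rw [Real.log_exp] at this
        linarith
      · have := Real.log_le_log (Real.exp_pos _) hx.1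
        rw [Real.log_exp] at this
        linarith
      · simp only
        have e : -(-Real.log x - 2 + 2) = Real.log x := by ring
        rw [e, Real.exp_log hx0]
  rw [intervalIntegral.integral_of_le hab, intervalIntegral.integral_of_le hn2,
    ← integral_Icc_eq_integral_Ioc, ← integral_Icc_eq_integral_Ioc, ← himg,
    integral_image_eq_integral_abs_deriv_smul (f' := fun l => -Real.exp (-(l + 2)))
      measurableSet_Icc ?_ ?_]
  · refine setIntegral_congr_fun measurableSet_Icc fun l _ => ?_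
    simp only [smul_eq_mul, abs_neg, Real.abs_exp]
  · intro l _
    have h1 : HasDerivAt (fun l : ℝ => -(l + 2)) (-1) l :=
      HasDerivAt.fun_neg ((hasDerivAt_id' l).add_const 2)
    have h2 := h1.exp
    refine (h2.congr_deriv ?_).hasDerivWithinAt
    ring
  · intro l _ l' _ h
    have := Real.exp_injective h
    linarith

/-- the main change of variables -/
theorem RR_omw {w : ℝ → ℝ} {n p : ℝ} (hn : 0 ≤ n) (H : ℝ → ℝ → ℝ) :
    RR (Real.exp (-(2 * n + 2))) (Real.exp (-(n + 2))) (fun x θ => omw w p x * H x θ) =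
      ∫ l in n..(2 * n), w l * Real.exp (-((p + 1) * (l + 2))) *
        ∫ θ in (-π)..π, H (Real.exp (-(l + 2))) θ := by
  unfold RR
  rw [sub_exp hn]
  refine intervalIntegral.integral_congr fun l _ => ?_
  simp only
  rw [intervalIntegral.integral_const_mul, omw_pos (Real.exp_pos _), Real.log_exp,
    ← Real.exp_mul]
  have e : -(-(l + 2)) - 2 = l := by ring
  have e2 : Real.exp (-((p + 1) * (l + 2))) = Real.exp (-(l + 2)) * Real.exp (-(l + 2) * p) := by
    rw [← Real.exp_add]
    congr 1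
    ring
  rw [e, e2]
  ring

theorem RR_omw_abs {w : ℝ → ℝ} {n p : ℝ} (hn : 0 ≤ n) (H : ℝ → ℝ → ℝ) :
    RR (Real.exp (-(2 * n + 2))) (Real.exp (-(n + 2)))
      (fun x θ => |p * omw w p x - x * omw' w p x| * H x θ) =
      ∫ l in n..(2 * n), |deriv w l| * Real.exp (-((p + 1) * (l + 2))) *
        ∫ θ in (-π)..π, H (Real.exp (-(l + 2))) θ := by
  unfold RR
  rw [sub_exp hn]
  refine intervalIntegral.integral_congr fun l _ => ?_
  simp only
  rw [intervalIntegral.integral_const_mul, omw_id (Real.exp_pos _), Real.log_exp,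
    ← Real.exp_mul, abs_mul, abs_of_pos (Real.exp_pos _)]
  have e : -(-(l + 2)) - 2 = l := by ring
  have e2 : Real.exp (-((p + 1) * (l + 2))) = Real.exp (-(l + 2)) * Real.exp (-(l + 2) * p) := by
    rw [← Real.exp_add]
    congr 1
    ring
  rw [e, e2]
  ring

/-! ### the level functions -/

/-- localised mean at depth `l` -/
noncomputable def mm (κ : ℝ) (u : ℝ → ℝ) (β : ℂ → ℂ) (l : ℝ) : ℝ :=
  (2 * π)⁻¹ * ∫ θ in (-π)..π, u θ * FF κ β (Real.exp (-l)) θ

/-- the level function -/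
noncomputable def GG (κ dl : ℝ) (u : ℝ → ℝ) (β : ℂ → ℂ) (l : ℝ) : ℝ :=
  Real.log (mm κ u β (l + 2)) - (κ - 1 + dl) * (l + 2)

theorem exp_GG {κ dl : ℝ} {u : ℝ → ℝ} {β : ℂ → ℂ} {l : ℝ} (h : 0 < mm κ u β (l + 2)) :
    Real.exp (GG κ dl u β l) = mm κ u β (l + 2) * Real.exp (-((κ - 1 + dl) * (l + 2))) := by
  unfold GG
  rw [sub_eq_add_neg, Real.exp_add, Real.exp_log h]

/-! ### continuity and rotation -/

theorem norm_ep (t θ : ℝ) : ‖ep t θ‖ = Real.exp t := by
  unfold ep
  rw [Complex.norm_exp]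
  simp

/-- LIP: the density changes by at most `e^(A |l - l'|)` along a radius -/
def LipStmt (κ : ℝ) : Prop :=
  ∃ A : ℝ, 0 ≤ A ∧ ∀ (β : ℂ → ℂ) (R : ℝ), ExtR β R →
    (∀ l l' θ : ℝ, 2 ≤ l → 2 ≤ l' →
      FF κ β (Real.exp (-l)) θ ≤ Real.exp (A * |l - l'|) * FF κ β (Real.exp (-l')) θ) ∧
    ∀ θ : ℝ, FF κ β (Real.exp (-2)) θ ≤ Real.exp A

theorem FF_cont (κ : ℝ) {β : ℂ → ℂ} {R a : ℝ} (h : ExtR β R) (ha : 0 < a) :
    Continuous (fun q : ℝ × ℝ => FF κ β (max a q.1) q.2) := by
  have hmem : ∀ q : ℝ × ℝ, ep (-(max a q.1)) q.2 ∈ ball (0:ℂ) R := by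
    intro q
    rw [mem_ball_zero_iff, norm_ep]
    have : Real.exp (-(max a q.1)) < 1 := by
      rw [Real.exp_lt_one_iff]
      have := le_max_left a q.1
      linarith
    exact this.trans h.one_lt
  have hc : Continuous (fun q : ℝ × ℝ => ep (-(max a q.1)) q.2) := by
    unfold ep
    fun_prop
  have hd : ContinuousOn (deriv β) (ball 0 R) := (h.diff.deriv isOpen_ball).continuousOn
  have h1 : Continuous (fun q : ℝ × ℝ => deriv β (ep (-(max a q.1)) q.2)) :=
    hd.comp_continuous hc hmem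
  have h2 : Continuous (fun q : ℝ × ℝ => N β (ep (-(max a q.1)) q.2)) := by
    unfold N
    exact continuous_const.sub ((hc.pow 2).mul h1)
  have h3 : ∀ q : ℝ × ℝ, ‖N β (ep (-(max a q.1)) q.2)‖ ≠ 0 := fun q =>
    norm_ne_zero_iff.2 (h.ne _ (hmem q))
  exact h2.norm.rpow_const fun q => Or.inl (h3 q)

theorem FF_pos (κ : ℝ) {β : ℂ → ℂ} {R x : ℝ} (h : ExtR β R) (hx : 0 < x) (θ : ℝ) :
    0 < FF κ β x θ := by
  refine Real.rpow_pos_of_pos (norm_pos_iff.2 (h.ne _ ?_)) _
  rw [mem_ball_zero_iff, norm_ep]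
  have : Real.exp (-x) < 1 := by
    rw [Real.exp_lt_one_iff]
    linarith
  exact this.trans h.one_lt

theorem FF_cont_th (κ : ℝ) {β : ℂ → ℂ} {R x : ℝ} (h : ExtR β R) (hx : 0 < x) :
    Continuous (FF κ β x) := by
  have h1 := (FF_cont κ h hx).comp (Continuous.prodMk_right x)
  refine h1.congr fun θ => ?_
  simp [Function.comp]

theorem rot_FF (κ : ℝ) (β : ℂ → ℂ) (α x θ : ℝ) :
    FF κ (rotβ β α) x θ = FF κ β x (θ + α) := by
  unfold FF
  rw [rot_N']
  congr 3
  unfold ep
  rw [← Complex.exp_add]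
  congr 1
  push_cast
  ring

theorem FF_per (κ : ℝ) (β : ℂ → ℂ) (x : ℝ) : Function.Periodic (FF κ β x) (2 * π) := by
  intro θ
  unfold FF
  congr 3
  unfold ep
  have e : ((-x : ℝ) : ℂ) + ((θ + 2 * π : ℝ) : ℂ) * I =
      ((-x : ℝ) : ℂ) + (θ : ℂ) * I + 2 * π * I := by
    push_cast
    ring
  rw [e, Complex.exp_add, Complex.exp_two_pi_mul_I, mul_one]

/-- rotation of the localised mean -/
theorem rot_int {κ : ℝ} {u : ℝ → ℝ} (up : Function.Periodic u (2 * π)) (β : ℂ → ℂ) (x α : ℝ) :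
    ∫ θ in (-π)..π, u (θ + α) * FF κ β x θ =
      ∫ θ in (-π)..π, u θ * FF κ (rotβ β (-α)) x θ := by
  have h1 : ∀ θ, u (θ + α) * FF κ β x θ =
      (fun t => u t * FF κ (rotβ β (-α)) x t) (θ + α) := by
    intro θ
    simp only
    rw [rot_FF]
    congr 2
    ring
  simp only [h1]
  rw [intervalIntegral.integral_comp_add_right (fun t => u t * FF κ (rotβ β (-α)) x t)]
  have hper : Function.Periodic (fun t => u t * FF κ (rotβ β (-α)) x t) (2 * π) := by
    intro t
    simp only
    rw [up t, FF_per]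
  have := hper.intervalIntegral_add_eq (-π + α) (-π)
  have e1 : -π + α + 2 * π = π + α := by ring
  have e2 : -π + 2 * π = π := by ring
  rw [e1, e2] at this
  exact this

end Pool.Agent.Helper52.CK
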